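import Mathlib

/-!
# Graphs of purely exponential growth do not have uniformly expanding balls

If all balls of a connected graph `G` satisfy `c * lam ^ r ≤ |B(v, r)| ≤ C * lam ^ r` with
constants `c, C > 0` and `lam > 1`, then the balls of `G` are not uniform expanders.
-/

set_option autoImplicit false

open scoped Classical

namespace Pool.Agent.Results.MP_41fc2e_co.PureExponentialGrowth

variable {V : Type*}

/-- The ball `B(v, r)`: vertices at graph distance at most `r` from `v`. -/
def gball (G : SimpleGraph V) (v : V) (r : ℕ) : Set V := {x | G.dist v x ≤ r}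

/-- The edges of `G` joining `S` to `B \ S`, each listed once, from its endpoint in `S`. -/
def edgeBoundary (G : SimpleGraph V) (B S : Set V) : Set (V × V) :=
  {e | e.1 ∈ S ∧ e.2 ∈ B \ S ∧ G.Adj e.1 e.2}

/-- The Cheeger constant of the induced subgraph on the finite set `B` is at least `ε`. -/
def CheegerGE (G : SimpleGraph V) (B : Set V) (ε : ℝ) : Prop :=
  ∀ S ⊆ B, S.Nonempty → 2 * S.ncard ≤ B.ncard → ε * S.ncard ≤ (edgeBoundary G B S).ncard

/-- All balls of `G`, around all vertices, are uniform expanders. -/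
def BallsUniformExpanders (G : SimpleGraph V) : Prop :=
  ∃ ε : ℝ, 0 < ε ∧ ∀ (v : V) (r : ℕ), CheegerGE G (gball G v r) ε

/-- The points of `U` all of whose neighbours in `B` lie in `U`. -/
noncomputable def peel (G : SimpleGraph V) (B U : Finset V) : Finset V :=
  U.filter (fun x => ∀ y ∈ B, G.Adj x y → y ∈ U)

/-- Iterated peeling. -/
noncomputable def peelIter (G : SimpleGraph V) (B U : Finset V) : ℕ → Finset V
  | 0 => U
  | t + 1 => peel G B (peelIter G B U t)

theorem peel_subset (G : SimpleGraph V) (B U : Finset V) : peel G B U ⊆ U :=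
  Finset.filter_subset _ _

theorem peelIter_subset (G : SimpleGraph V) (B U : Finset V) (t : ℕ) :
    peelIter G B U t ⊆ U := by
  induction t with
  | zero => exact Finset.Subset.refl _
  | succ t ih => exact (peel_subset G B _).trans ih

theorem peel_card {G : SimpleGraph V} {B U : Finset V} {ε D : ℝ}
    (hB : CheegerGE G (B : Set V) ε) (hdeg : ∀ x ∈ B, ((B.filter (G.Adj x)).card : ℝ) ≤ D)
    (hU : U ⊆ B) (hU2 : 2 * U.card ≤ B.card) :
    D * (peel G B U).card ≤ (D - ε) * U.card := by
  rcases U.eq_empty_or_nonempty with rfl | hne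
  · simp [peel]
  have h1 := hB (U : Set V) (by exact_mod_cast hU) (by exact_mod_cast hne)
    (by rw [Set.ncard_coe_finset, Set.ncard_coe_finset]; exact hU2)
  rw [Set.ncard_coe_finset] at h1
  have h2 : edgeBoundary G (B : Set V) (U : Set V) =
      ((U.sigma (fun x => (B \ U).filter (G.Adj x))).image
        (fun p : (_ : V) × V => (p.1, p.2)) : Finset (V × V)) := by
    ext ⟨x, y⟩
    simp only [edgeBoundary, Set.mem_ofPred_eq, Finset.coe_image, Set.mem_image, Finset.mem_coe,
      Finset.mem_sigma, Finset.mem_filter, Finset.mem_sdiff, Set.mem_sdiff, Prod.mk.injEq]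
    constructor
    · rintro ⟨h1, h2, h3⟩
      exact ⟨⟨x, y⟩, ⟨h1, h2, h3⟩, rfl, rfl⟩
    · rintro ⟨⟨x', y'⟩, ⟨h1, h2, h3⟩, rfl, rfl⟩
      exact ⟨h1, h2, h3⟩
  have h3 : ((edgeBoundary G (B : Set V) (U : Set V)).ncard : ℝ) ≤
      D * ((U \ peel G B U).card : ℝ) := by
    rw [h2, Set.ncard_coe_finset]
    have h4 : ((U.sigma (fun x => (B \ U).filter (G.Adj x))).image
        (fun p : (_ : V) × V => (p.1, p.2))).card ≤
        ∑ x ∈ U, ((B \ U).filter (G.Adj x)).card := by
      refine Finset.card_image_le.trans ?_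
      rw [Finset.card_sigma]
    have h5 : ∑ x ∈ U, ((B \ U).filter (G.Adj x)).card =
        ∑ x ∈ U \ peel G B U, ((B \ U).filter (G.Adj x)).card := by
      symm
      apply Finset.sum_subset Finset.sdiff_subset
      intro x hx hx'
      have hxp : x ∈ peel G B U := by
        by_contra hcon
        exact hx' (Finset.mem_sdiff.2 ⟨hx, hcon⟩)
      rw [Finset.card_eq_zero, Finset.filter_eq_empty_iff]
      intro y hy hadj
      rw [Finset.mem_sdiff] at hy
      exact hy.2 ((Finset.mem_filter.1 hxp).2 y hy.1 hadj)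
    calc ((((U.sigma (fun x => (B \ U).filter (G.Adj x))).image
        (fun p : (_ : V) × V => (p.1, p.2))).card : ℕ) : ℝ)
        ≤ ((∑ x ∈ U \ peel G B U, ((B \ U).filter (G.Adj x)).card : ℕ) : ℝ) := by
          exact_mod_cast h4.trans h5.le
      _ = ∑ x ∈ U \ peel G B U, (((B \ U).filter (G.Adj x)).card : ℝ) := by push_cast; rfl
      _ ≤ ∑ _x ∈ U \ peel G B U, D := by
          apply Finset.sum_le_sum
          intro x hx
          have hxB : x ∈ B := hU (Finset.mem_sdiff.1 hx).1
          refine le_trans ?_ (hdeg x hxB)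
          exact_mod_cast Finset.card_le_card
            (Finset.filter_subset_filter _ Finset.sdiff_subset)
      _ = D * ((U \ peel G B U).card : ℝ) := by
          rw [Finset.sum_const, nsmul_eq_mul, mul_comm]
  have h6 : ((U \ peel G B U).card : ℝ) = U.card - (peel G B U).card := by
    rw [Finset.card_sdiff_of_subset (peel_subset G B U),
      Nat.cast_sub (Finset.card_le_card (peel_subset G B U))]
  rw [h6] at h3
  nlinarith [h1.trans h3]

theorem peelIter_card {G : SimpleGraph V} {B U : Finset V} {ε D : ℝ} (hD : 0 < D) (hεD : ε ≤ D)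
    (hB : CheegerGE G (B : Set V) ε) (hdeg : ∀ x ∈ B, ((B.filter (G.Adj x)).card : ℝ) ≤ D)
    (hU : U ⊆ B) (hU2 : 2 * U.card ≤ B.card) (t : ℕ) :
    ((peelIter G B U t).card : ℝ) ≤ (1 - ε / D) ^ t * U.card := by
  induction t with
  | zero => simp [peelIter]
  | succ t ih =>
    have hsub := peelIter_subset G B U t
    have h1 := peel_card hB hdeg (hsub.trans hU)
      (le_trans (Nat.mul_le_mul_left 2 (Finset.card_le_card hsub)) hU2)
    have h2 : ((peelIter G B U (t + 1)).card : ℝ) ≤ (1 - ε / D) * (peelIter G B U t).card := by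
      have h3 : (1 - ε / D) = (D - ε) / D := by field_simp
      rw [h3, div_mul_eq_mul_div, le_div_iff₀ hD, mul_comm]
      exact h1
    have h4 : 0 ≤ 1 - ε / D := by
      rw [sub_nonneg, div_le_one hD]
      exact hεD
    calc ((peelIter G B U (t + 1)).card : ℝ) ≤ (1 - ε / D) * (peelIter G B U t).card := h2
      _ ≤ (1 - ε / D) * ((1 - ε / D) ^ t * U.card) := mul_le_mul_of_nonneg_left ih h4
      _ = (1 - ε / D) ^ (t + 1) * U.card := by ring

theorem exists_of_not_mem_peelIter {G : SimpleGraph V} (hG : G.Connected) {B U : Finset V}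
    (t : ℕ) {x : V} (hx : x ∈ U) (hxt : x ∉ peelIter G B U t) :
    ∃ y ∈ B, y ∉ U ∧ G.dist x y ≤ t := by
  induction t generalizing x with
  | zero => exact absurd hx hxt
  | succ t ih =>
    by_cases h : x ∈ peelIter G B U t
    · have h1 : ∃ y ∈ B, G.Adj x y ∧ y ∉ peelIter G B U t := by
        by_contra hcon
        push Not at hcon
        exact hxt (Finset.mem_filter.2 ⟨h, hcon⟩)
      obtain ⟨y, hyB, hxy, hy⟩ := h1
      have hd : G.dist x y = 1 := SimpleGraph.dist_eq_one_iff_adj.2 hxy
      by_cases hyU : y ∈ U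
      · obtain ⟨z, hzB, hzU, hyz⟩ := ih hyU hy
        refine ⟨z, hzB, hzU, ?_⟩
        have := hG.dist_triangle (u := x) (v := y) (w := z)
        omega
      · exact ⟨y, hyB, hyU, by omega⟩
    · obtain ⟨y, h1, h2, h3⟩ := ih hx h
      exact ⟨y, h1, h2, by omega⟩

/-- Points on geodesics. -/
theorem exists_between {G : SimpleGraph V} (hG : G.Connected) (u x : V) (k : ℕ)
    (hk : k ≤ G.dist u x) : ∃ w, G.dist u w = k ∧ G.dist w x + k = G.dist u x := by
  obtain ⟨p, hp⟩ := hG.exists_walk_length_eq_dist u x
  have h1 : G.dist u (p.getVert k) ≤ k := by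
    have := SimpleGraph.dist_le (p.take k)
    rw [SimpleGraph.Walk.take_length] at this
    omega
  have h2 : G.dist (p.getVert k) x ≤ G.dist u x - k := by
    have := SimpleGraph.dist_le (p.drop k)
    rw [SimpleGraph.Walk.drop_length] at this
    omega
  have h3 := hG.dist_triangle (u := u) (v := p.getVert k) (w := x)
  exact ⟨p.getVert k, by omega, by omega⟩

/-- A chain of points on a geodesic, with steps of length `j`. -/
theorem exists_chain {G : SimpleGraph V} (hG : G.Connected) (o x : V) (j n : ℕ)
    (hn : n * j ≤ G.dist o x) : ∃ g : ℕ → V, g 0 = o ∧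
      (∀ i ≤ n, G.dist (g i) x + i * j = G.dist o x) ∧
      (∀ i < n, G.dist (g i) (g (i + 1)) = j) ∧ (∀ i ≤ n, G.dist o (g i) = i * j) := by
  have key : ∃ g : ℕ → V, g 0 = o ∧ (∀ i ≤ n, G.dist (g i) x + i * j = G.dist o x) ∧
      (∀ i < n, G.dist (g i) (g (i + 1)) = j) := by
    induction n with
    | zero =>
      refine ⟨fun _ => o, rfl, ?_, ?_⟩
      · intro i hi
        obtain rfl : i = 0 := by omega
        simp
      · intro i hi; omega
    | succ n ih =>
      have hn' : n * j ≤ G.dist o x := by
        rw [Nat.succ_mul] at hn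
        omega
      obtain ⟨g, h0, h1, h2⟩ := ih hn'
      have h3 := h1 n le_rfl
      rw [Nat.succ_mul] at hn
      obtain ⟨w, hw1, hw2⟩ := exists_between hG (g n) x j (by omega)
      refine ⟨fun i => if i = n + 1 then w else g i, ?_, ?_, ?_⟩
      · simp [h0]
      · intro i hi
        by_cases h : i = n + 1
        · simp only [h, if_true]
          rw [Nat.succ_mul]
          omega
        · simp only [h, if_false]
          exact h1 i (by omega)
      · intro i hi
        have hi1 : i ≠ n + 1 := by omega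
        simp only [hi1, if_false]
        by_cases h : i + 1 = n + 1
        · have hin : i = n := by omega
          subst hin
          simp only [if_true]
          exact hw1
        · simp only [h, if_false]
          exact h2 i (by omega)
  obtain ⟨g, h0, h1, h2⟩ := key
  refine ⟨g, h0, h1, h2, ?_⟩
  intro i hi
  have h3 : ∀ i ≤ n, G.dist o (g i) ≤ i * j := by
    intro i
    induction i with
    | zero => intro _; simp [h0]
    | succ i ih =>
      intro hi
      have h4 := ih (by omega)
      have h5 := h2 i (by omega)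
      have h6 := hG.dist_triangle (u := o) (v := g i) (w := g (i + 1))
      rw [Nat.succ_mul]
      omega
  have h7 := h3 i hi
  have h8 := h1 i hi
  have h9 := hG.dist_triangle (u := o) (v := g i) (w := x)
  omega

/-- A nondecreasing integer sequence with small range has few strict increases. -/
theorem card_increases (h : ℕ → ℤ) (n : ℕ) (T : ℤ) (hmono : ∀ i < n, h i ≤ h (i + 1))
    (hlo : -T ≤ h 0) (hhi : h n ≤ T) :
    (((Finset.range n).filter (fun i => h i < h (i + 1))).card : ℤ) ≤ 2 * T := by
  have key : ∀ m ≤ n, (((Finset.range m).filter (fun i => h i < h (i + 1))).card : ℤ) ≤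
      h m - h 0 := by
    intro m
    induction m with
    | zero => intro _; simp
    | succ m ih =>
      intro hm
      have h1 := ih (by omega)
      have h2 := hmono m (by omega)
      rw [Finset.range_add_one, Finset.filter_insert]
      split_ifs with hlt
      · rw [Finset.card_insert_of_notMem (by simp)]
        push_cast
        omega
      · omega
  have := key n le_rfl
  omega

theorem CheegerGE.mono {G : SimpleGraph V} {B : Set V} {ε ε' : ℝ} (h : CheegerGE G B ε)
    (hε : ε' ≤ ε) : CheegerGE G B ε' := by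
  intro S hS hne hcard
  refine le_trans ?_ (h S hS hne hcard)
  exact mul_le_mul_of_nonneg_right hε (Nat.cast_nonneg _)

/-- **Main theorem.** A connected graph of purely exponential growth does not have uniformly
expanding balls. -/
theorem result {V : Type*} (G : SimpleGraph V) (hG : G.Connected) (c C lam : ℝ)
    (hc : 0 < c) (hlam : 1 < lam)
    (hlow : ∀ (v : V) (r : ℕ), c * lam ^ r ≤ ((gball G v r).ncard : ℝ))
    (hup : ∀ (v : V) (r : ℕ), ((gball G v r).ncard : ℝ) ≤ C * lam ^ r) :
    ¬ BallsUniformExpanders G := by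
  rintro ⟨ε0, hε0, hexp⟩
  have hlam0 : (0 : ℝ) < lam := by linarith
  obtain ⟨o⟩ := hG.nonempty
  have hC : 0 < C := by
    have h1 := hlow o 0
    have h2 := hup o 0
    simp only [pow_zero, mul_one] at h1 h2
    linarith
  have hfin : ∀ v r, (gball G v r).Finite := by
    intro v r
    apply Set.finite_of_ncard_ne_zero
    intro h0
    have h1 := hlow v r
    rw [h0] at h1
    have : 0 < c * lam ^ r := by positivity
    simp at h1
    linarith
  let Bf : V → ℕ → Finset V := fun v r => (hfin v r).toFinset
  have hBf : ∀ v r x, x ∈ Bf v r ↔ G.dist v x ≤ r := by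
    intro v r x
    simp only [Bf, Set.Finite.mem_toFinset]
    exact Iff.rfl
  have hBfc : ∀ v r, ((gball G v r).ncard : ℝ) = (Bf v r).card := by
    intro v r
    rw [Set.ncard_eq_toFinset_card _ (hfin v r)]
  have hBfs : ∀ v r, ((Bf v r : Finset V) : Set V) = gball G v r := by
    intro v r
    simp only [Bf, Set.Finite.coe_toFinset]
  have hlow' : ∀ v r, c * lam ^ r ≤ ((Bf v r).card : ℝ) := fun v r => hBfc v r ▸ hlow v r
  have hup' : ∀ v r, ((Bf v r).card : ℝ) ≤ C * lam ^ r := fun v r => hBfc v r ▸ hup v r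
  -- constants
  obtain ⟨j, hj⟩ : ∃ j : ℕ, 2 * C / c < lam ^ j := pow_unbounded_of_one_lt _ hlam
  have hj2 : 2 * C ≤ c * lam ^ j := by
    rw [div_lt_iff₀ hc] at hj
    linarith
  obtain ⟨D, hD⟩ : ∃ D, D = C * lam := ⟨_, rfl⟩
  have hD0 : 0 < D := by rw [hD]; positivity
  obtain ⟨ε, hε⟩ : ∃ ε, ε = min ε0 D := ⟨_, rfl⟩
  have hεpos : 0 < ε := by rw [hε]; exact lt_min hε0 hD0
  have hεD : ε ≤ D := by rw [hε]; exact min_le_right _ _
  have hexp' : ∀ v r, CheegerGE G ((Bf v r : Finset V) : Set V) ε := by
    intro v r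
    rw [hBfs]
    exact (hexp v r).mono (by rw [hε]; exact min_le_left _ _)
  have hdeg : ∀ (B : Finset V) (x : V), ((B.filter (G.Adj x)).card : ℝ) ≤ D := by
    intro B x
    have h1 : B.filter (G.Adj x) ⊆ Bf x 1 := by
      intro y hy
      rw [hBf]
      exact (SimpleGraph.dist_eq_one_iff_adj.2 (Finset.mem_filter.1 hy).2).le
    calc ((B.filter (G.Adj x)).card : ℝ) ≤ (Bf x 1).card := by
          exact_mod_cast Finset.card_le_card h1
      _ ≤ C * lam ^ 1 := hup' x 1
      _ = D := by rw [hD, pow_one]
  obtain ⟨θ, hθ⟩ : ∃ θ, θ = 1 - ε / D := ⟨_, rfl⟩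
  have hθ0 : 0 ≤ θ := by
    rw [hθ, sub_nonneg, div_le_one hD0]
    exact hεD
  have hθ1 : θ < 1 := by
    rw [hθ]
    have : 0 < ε / D := by positivity
    linarith
  obtain ⟨t, ht⟩ : ∃ t : ℕ, θ ^ t < (c / 8) / (C ^ 3 * lam ^ j) :=
    exists_pow_lt_of_lt_one (by positivity) hθ1
  have ht' : C ^ 3 * lam ^ j * θ ^ t ≤ c / 8 := by
    rw [lt_div_iff₀ (by positivity)] at ht
    linarith
  -- deep sets
  let A : V → V → ℕ → Finset V := fun v w r =>
    (Bf v r).filter (fun x => G.dist v x = j + G.dist w x)
  have hA2 : ∀ v w r, j ≤ r → 2 * (A v w r).card ≤ (Bf v r).card ∧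
      ((A v w r).card : ℝ) ≤ C * lam ^ r := by
    intro v w r hr
    have h1 : A v w r ⊆ Bf w (r - j) := by
      intro x hx
      rw [Finset.mem_filter, hBf] at hx
      rw [hBf]
      omega
    have h2 : ((A v w r).card : ℝ) ≤ C * lam ^ (r - j) :=
      le_trans (by exact_mod_cast Finset.card_le_card h1) (hup' w (r - j))
    have h3 : lam ^ j * lam ^ (r - j) = lam ^ r := by
      rw [← pow_add]
      congr 1
      omega
    have h4 : 2 * (C * lam ^ (r - j)) ≤ c * lam ^ r := by
      rw [← h3]
      have := mul_le_mul_of_nonneg_right hj2 (pow_nonneg hlam0.le (r - j))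
      linarith
    constructor
    · have h5 : (2 : ℝ) * (A v w r).card ≤ (Bf v r).card := by
        have := hlow' v r
        linarith
      exact_mod_cast h5
    · refine le_trans h2 ?_
      exact mul_le_mul_of_nonneg_left (pow_le_pow_right₀ hlam.le (Nat.sub_le r j)) hC.le
  let Deep : V → V → ℕ → Finset V := fun v w r => peelIter G (Bf v r) (A v w r) t
  have hDeep : ∀ v w r, j ≤ r → ((Deep v w r).card : ℝ) ≤ θ ^ t * (C * lam ^ r) := by
    intro v w r hr
    have h1 := peelIter_card (G := G) (B := Bf v r) (U := A v w r) hD0 hεD (hexp' v r)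
      (fun x _ => hdeg _ x) (Finset.filter_subset _ _) (hA2 v w r hr).1 t
    rw [← hθ] at h1
    exact h1.trans (mul_le_mul_of_nonneg_left (hA2 v w r hr).2 (pow_nonneg hθ0 t))
  -- the number n of steps
  obtain ⟨K, hK⟩ : ∃ K : ℕ, ∀ x, (Bf x t).card * (2 * t) ≤ K := by
    obtain ⟨M, hM⟩ := exists_nat_ge (C * lam ^ t)
    refine ⟨M * (2 * t), fun x => Nat.mul_le_mul_right _ ?_⟩
    have := (hup' x t).trans hM
    exact_mod_cast this
  obtain ⟨n, hn⟩ : ∃ n, n = 2 * K + 1 := ⟨_, rfl⟩
  obtain ⟨m, hm⟩ : ∃ m, m = (n + 1) * j := ⟨_, rfl⟩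
  have hm' : m = n * j + j := by rw [hm, Nat.succ_mul]
  let X : Finset V := (Bf o m).filter (fun x => n * j ≤ G.dist o x)
  have hX : c / 2 * lam ^ m ≤ (X.card : ℝ) := by
    have h1 : (Bf o m).card ≤ X.card + (Bf o (n * j)).card := by
      have h2 : Bf o m ⊆ X ∪ Bf o (n * j) := by
        intro x hx
        rw [Finset.mem_union, Finset.mem_filter, hBf o (n * j)]
        by_cases h : n * j ≤ G.dist o x
        · exact Or.inl ⟨hx, h⟩
        · right; omega
      exact (Finset.card_le_card h2).trans (Finset.card_union_le _ _)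
    have h1' : ((Bf o m).card : ℝ) ≤ X.card + (Bf o (n * j)).card := by exact_mod_cast h1
    have h3 := hlow' o m
    have h4 := hup' o (n * j)
    have h5 : 2 * (C * lam ^ (n * j)) ≤ c * lam ^ m := by
      rw [hm', pow_add]
      have := mul_le_mul_of_nonneg_right hj2 (pow_nonneg hlam0.le (n * j))
      linarith
    linarith
  have hch : ∀ x, ∃ g : ℕ → V, n * j ≤ G.dist o x → (g 0 = o ∧
      (∀ i ≤ n, G.dist (g i) x + i * j = G.dist o x) ∧
      (∀ i < n, G.dist (g i) (g (i + 1)) = j) ∧ (∀ i ≤ n, G.dist o (g i) = i * j)) := by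
    intro x
    by_cases h : n * j ≤ G.dist o x
    · obtain ⟨g, hg⟩ := exists_chain hG o x j n h
      exact ⟨g, fun _ => hg⟩
    · exact ⟨fun _ => o, fun h' => absurd h' h⟩
  choose g hg using hch
  -- each x is deep for most indices
  have hcount : ∀ x ∈ X, n ≤ ((Finset.range n).filter (fun i =>
      x ∈ Deep (g x i) (g x (i + 1)) (m - i * j))).card + K := by
    intro x hx
    rw [Finset.mem_filter, hBf] at hx
    obtain ⟨h0, h1, h2, h3⟩ := hg x hx.2
    have hsub : (Finset.range n).filter (fun i =>
        ¬ x ∈ Deep (g x i) (g x (i + 1)) (m - i * j)) ⊆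
        (Bf x t).biUnion (fun y => (Finset.range n).filter (fun i =>
          ((G.dist (g x i) y : ℤ) - G.dist (g x i) x) <
            ((G.dist (g x (i + 1)) y : ℤ) - G.dist (g x (i + 1)) x))) := by
      intro i hi
      rw [Finset.mem_filter, Finset.mem_range] at hi
      obtain ⟨hin, hnot⟩ := hi
      have e1 := h1 i (by omega)
      have e2 := h1 (i + 1) (by omega)
      rw [Nat.succ_mul] at e2
      have hxA : x ∈ A (g x i) (g x (i + 1)) (m - i * j) := by
        rw [Finset.mem_filter, hBf]
        constructor <;> omega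
      obtain ⟨y, hyB, hyA, hxy⟩ := exists_of_not_mem_peelIter hG t hxA hnot
      rw [Finset.mem_biUnion]
      refine ⟨y, (hBf _ _ _).2 hxy, ?_⟩
      rw [Finset.mem_filter, Finset.mem_range]
      refine ⟨hin, ?_⟩
      have hne : G.dist (g x i) y ≠ j + G.dist (g x (i + 1)) y := by
        intro h
        exact hyA (Finset.mem_filter.2 ⟨hyB, h⟩)
      have e3 := hG.dist_triangle (u := g x i) (v := g x (i + 1)) (w := y)
      have e4 := h2 i hin
      omega
    have hcard : ((Finset.range n).filter (fun i =>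
        ¬ x ∈ Deep (g x i) (g x (i + 1)) (m - i * j))).card ≤ K := by
      refine (Finset.card_le_card hsub).trans (le_trans ?_ (hK x))
      apply Finset.card_biUnion_le_card_mul
      intro y hy
      rw [hBf] at hy
      have h5 := card_increases (fun i => (G.dist (g x i) y : ℤ) - G.dist (g x i) x) n t
        (by
          intro i hi
          have e1 := h1 i (by omega)
          have e2 := h1 (i + 1) (by omega)
          rw [Nat.succ_mul] at e2
          have e3 := hG.dist_triangle (u := g x i) (v := g x (i + 1)) (w := y)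
          have e4 := h2 i hi
          show (G.dist (g x i) y : ℤ) - G.dist (g x i) x ≤
            (G.dist (g x (i + 1)) y : ℤ) - G.dist (g x (i + 1)) x
          omega)
        (by
          have e3 := hG.dist_triangle (u := g x 0) (v := y) (w := x)
          rw [SimpleGraph.dist_comm (u := y) (v := x)] at e3
          show -(t : ℤ) ≤ (G.dist (g x 0) y : ℤ) - G.dist (g x 0) x
          omega)
        (by
          have e3 := hG.dist_triangle (u := g x n) (v := x) (w := y)
          show (G.dist (g x n) y : ℤ) - G.dist (g x n) x ≤ (t : ℤ)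
          omega)
      zify
      exact h5
    have hsplit := Finset.card_filter_add_card_filter_not (s := Finset.range n)
      (fun i => x ∈ Deep (g x i) (g x (i + 1)) (m - i * j))
    rw [Finset.card_range] at hsplit
    omega
  -- double counting
  have hdc : ∑ x ∈ X, ((Finset.range n).filter (fun i =>
      x ∈ Deep (g x i) (g x (i + 1)) (m - i * j))).card =
      ∑ i ∈ Finset.range n, (X.filter (fun x =>
        x ∈ Deep (g x i) (g x (i + 1)) (m - i * j))).card := by
    simp only [Finset.card_filter]
    exact Finset.sum_comm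
  have hi_bound : ∀ i ∈ Finset.range n, ((X.filter (fun x =>
      x ∈ Deep (g x i) (g x (i + 1)) (m - i * j))).card : ℝ) ≤
      C ^ 3 * lam ^ j * θ ^ t * lam ^ m := by
    intro i hi
    rw [Finset.mem_range] at hi
    have hij : i * j + j ≤ m := by
      rw [hm']
      have := Nat.mul_le_mul_right j hi.le
      omega
    have hsub : X.filter (fun x => x ∈ Deep (g x i) (g x (i + 1)) (m - i * j)) ⊆
        (Bf o (i * j)).biUnion (fun v => (Bf v j).biUnion (fun w => Deep v w (m - i * j))) := by
      intro x hx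
      rw [Finset.mem_filter, Finset.mem_filter] at hx
      obtain ⟨⟨_, hx1⟩, hx2⟩ := hx
      obtain ⟨h0, h1, h2, h3⟩ := hg x hx1
      rw [Finset.mem_biUnion]
      refine ⟨g x i, (hBf _ _ _).2 (h3 i (by omega)).le, ?_⟩
      rw [Finset.mem_biUnion]
      exact ⟨g x (i + 1), (hBf _ _ _).2 (h2 i hi).le, hx2⟩
    have hpow : lam ^ (i * j) * lam ^ (m - i * j) = lam ^ m := by
      rw [← pow_add]
      congr 1
      omega
    calc ((X.filter (fun x => x ∈ Deep (g x i) (g x (i + 1)) (m - i * j))).card : ℝ)
        ≤ (((Bf o (i * j)).biUnion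
            (fun v => (Bf v j).biUnion (fun w => Deep v w (m - i * j)))).card : ℝ) := by
          exact_mod_cast Finset.card_le_card hsub
      _ ≤ ((∑ v ∈ Bf o (i * j), ∑ w ∈ Bf v j, (Deep v w (m - i * j)).card : ℕ) : ℝ) := by
          have : ((Bf o (i * j)).biUnion
            (fun v => (Bf v j).biUnion (fun w => Deep v w (m - i * j)))).card ≤
            ∑ v ∈ Bf o (i * j), ∑ w ∈ Bf v j, (Deep v w (m - i * j)).card :=
            Finset.card_biUnion_le.trans (Finset.sum_le_sum (fun v _ => Finset.card_biUnion_le))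
          exact_mod_cast this
      _ = ∑ v ∈ Bf o (i * j), ∑ w ∈ Bf v j, ((Deep v w (m - i * j)).card : ℝ) := by
          push_cast; rfl
      _ ≤ ∑ v ∈ Bf o (i * j), ∑ _w ∈ Bf v j, θ ^ t * (C * lam ^ (m - i * j)) := by
          apply Finset.sum_le_sum
          intro v _
          apply Finset.sum_le_sum
          intro w _
          exact hDeep v w _ (by omega)
      _ ≤ ∑ _v ∈ Bf o (i * j), (C * lam ^ j) * (θ ^ t * (C * lam ^ (m - i * j))) := by
          apply Finset.sum_le_sum
          intro v _
          rw [Finset.sum_const, nsmul_eq_mul]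
          apply mul_le_mul_of_nonneg_right (hup' v j)
          positivity
      _ ≤ (C * lam ^ (i * j)) * ((C * lam ^ j) * (θ ^ t * (C * lam ^ (m - i * j)))) := by
          rw [Finset.sum_const, nsmul_eq_mul]
          apply mul_le_mul_of_nonneg_right (hup' o (i * j))
          positivity
      _ = C ^ 3 * lam ^ j * θ ^ t * (lam ^ (i * j) * lam ^ (m - i * j)) := by ring
      _ = C ^ 3 * lam ^ j * θ ^ t * lam ^ m := by rw [hpow]
  have htotal : (X.card : ℝ) * (n - K) ≤ n * (C ^ 3 * lam ^ j * θ ^ t * lam ^ m) := by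
    have h1 : (X.card : ℝ) * (n - K) ≤ ((∑ x ∈ X, ((Finset.range n).filter (fun i =>
      x ∈ Deep (g x i) (g x (i + 1)) (m - i * j))).card : ℕ) : ℝ) := by
      push_cast
      rw [← nsmul_eq_mul, ← Finset.sum_const]
      apply Finset.sum_le_sum
      intro x hx
      have := hcount x hx
      have h2 : (n : ℝ) ≤ ((Finset.range n).filter (fun i =>
        x ∈ Deep (g x i) (g x (i + 1)) (m - i * j))).card + K := by exact_mod_cast this
      linarith
    refine h1.trans ?_
    rw [hdc]
    push_cast
    have h3 := Finset.sum_le_sum hi_bound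
    rw [Finset.sum_const, Finset.card_range, nsmul_eq_mul] at h3
    exact h3
  have hpm : 0 < lam ^ m := by positivity
  have hnK : (n : ℝ) = 2 * K + 1 := by rw [hn]; push_cast; ring
  have hK0 : (0 : ℝ) ≤ K := Nat.cast_nonneg _
  have h1 : c / 2 * lam ^ m * (n - K) ≤ n * (c / 8 * lam ^ m) := by
    calc c / 2 * lam ^ m * (n - K) ≤ (X.card : ℝ) * (n - K) := by
          apply mul_le_mul_of_nonneg_right hX
          rw [hnK]; linarith
      _ ≤ n * (C ^ 3 * lam ^ j * θ ^ t * lam ^ m) := htotal
      _ ≤ n * (c / 8 * lam ^ m) := by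
          apply mul_le_mul_of_nonneg_left _ (Nat.cast_nonneg _)
          exact mul_le_mul_of_nonneg_right ht' hpm.le
  rw [hnK] at h1
  have h2 : c * lam ^ m * ((K + 1) / 2) ≤ c * lam ^ m * ((2 * K + 1) / 8) := by
    linarith
  have h3 : ((K : ℝ) + 1) / 2 ≤ (2 * K + 1) / 8 := by
    exact le_of_mul_le_mul_left h2 (by positivity)
  linarith

end Pool.Agent.Results.MP_41fc2e_co.PureExponentialGrowth
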